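import Mathlib

/-!
# MP_1fc697 — the conjecture on signed k-subdomination of connected graphs fails

For every `t ≥ 2` there is a connected graph of order `n = 4 t` whose signed
`(n / 2 + 1)`-subdomination number is at least `4 > 2 (n / 2 + 1) - n`.
-/

namespace Pool.Agent.Results.MP_1fc697_co.CoverCE

open Finset

section defs

variable {V : Type} [Fintype V] [DecidableEq V]

/-- `f[v]`: the sum of `f` over the closed neighbourhood of `v`. -/
def closedSum (G : SimpleGraph V) [DecidableRel G.Adj] (f : V → ℤ) (v : V) : ℤ :=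
  f v + ∑ u ∈ G.neighborFinset v, f u

/-- `f` is a signed `k`-subdominating function of `G`: it takes the values `1` and `-1`
only, and at least `k` vertices `v` are covered, that is `f[v] ≥ 1`. -/
def IsKSub (G : SimpleGraph V) [DecidableRel G.Adj] (k : ℕ) (f : V → ℤ) : Prop :=
  (∀ v, f v = 1 ∨ f v = -1) ∧ k ≤ (univ.filter fun v => 1 ≤ closedSum G f v).card

end defs

/-- The signed `k`-subdomination number: the least weight `∑ v, f v` of a signed
`k`-subdominating function. -/
noncomputable def gammaKs {n : ℕ} (G : SimpleGraph (Fin n)) (k : ℕ) : ℤ :=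
  by classical exact sInf {w : ℤ | ∃ f : Fin n → ℤ, IsKSub G k f ∧ w = ∑ v, f v}

/-- `p_𝒢(n)`: the smallest `p` such that `γ_ks(G) ≤ 2 k - n` for every connected graph `G`
of order `n` and every `k` with `p ≤ k ≤ n`. -/
noncomputable def pConn (n : ℕ) : ℕ :=
  sInf {p : ℕ | ∀ G : SimpleGraph (Fin n), G.Connected → ∀ k : ℕ, p ≤ k → k ≤ n →
    gammaKs G k ≤ 2 * (k : ℤ) - n}

/-! ### The graphs: two copies of `K_m` with the edge `01` switched -/

/-- the double cover of `K_m` in which only the edge `01` is twisted -/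
def cov (m : ℕ) : SimpleGraph (Fin m × Bool) where
  Adj x y := x.1 ≠ y.1 ∧
    (x.2 ≠ y.2 ↔ (x.1.val = 0 ∧ y.1.val = 1) ∨ (x.1.val = 1 ∧ y.1.val = 0))
  symm := ⟨by
    rintro ⟨i, a⟩ ⟨j, b⟩ ⟨h1, h2⟩
    refine ⟨fun h => h1 h.symm, ?_⟩
    constructor
    · intro h
      rcases h2.1 (fun h' => h h'.symm) with h3 | h3
      · exact Or.inr ⟨h3.2, h3.1⟩
      · exact Or.inl ⟨h3.2, h3.1⟩
    · intro h h'
      refine h2.2 ?_ h'.symm
      rcases h with h3 | h3
      · exact Or.inr ⟨h3.2, h3.1⟩
      · exact Or.inl ⟨h3.2, h3.1⟩⟩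
  loopless := ⟨fun x h => h.1 rfl⟩

/-- the twist between rows `i` and `j` -/
def tw {m : ℕ} (i j : Fin m) : Bool :=
  decide ((i.val = 0 ∧ j.val = 1) ∨ (i.val = 1 ∧ j.val = 0))

theorem tw_self {m : ℕ} (i : Fin m) : tw i i = false := by
  simp only [tw, decide_eq_false_iff_not]
  omega

theorem adj_iff {m : ℕ} (x y : Fin m × Bool) :
    (y = x ∨ (cov m).Adj x y) ↔ y.2 = xor x.2 (tw x.1 y.1) := by
  obtain ⟨i, a⟩ := x
  obtain ⟨j, b⟩ := y
  simp only [cov, Prod.mk.injEq, tw]
  by_cases hij : j = i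
  · subst hij
    have h : ¬ ((j.val = 0 ∧ j.val = 1) ∨ (j.val = 1 ∧ j.val = 0)) := by omega
    simp [h]
  · have hij' : i ≠ j := fun h => hij h.symm
    by_cases h : (i.val = 0 ∧ j.val = 1) ∨ (i.val = 1 ∧ j.val = 0)
    · simp only [h, hij, hij', false_and, false_or, ne_eq, not_false_eq_true, true_and,
        iff_true, decide_true]
      cases a <;> cases b <;> simp
    · simp only [h, hij, hij', false_and, false_or, ne_eq, not_false_eq_true, true_and,
        iff_false, decide_false]
      cases a <;> cases b <;> simp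

section main

variable {V : Type} [Fintype V] [DecidableEq V] {m : ℕ}

theorem closedSum_eq (G : SimpleGraph V) [DecidableRel G.Adj] (e : V ≃ Fin m × Bool)
    (hG : ∀ x y, G.Adj x y ↔ (cov m).Adj (e x) (e y)) (f : V → ℤ) (v : V) :
    closedSum G f v = ∑ j : Fin m, f (e.symm (j, xor (e v).2 (tw (e v).1 j))) := by
  have h1 : closedSum G f v = ∑ u ∈ univ.filter (fun u => u = v ∨ G.Adj v u), f u := by
    have h2 : (univ.filter (fun u => u = v ∨ G.Adj v u)) = insert v (G.neighborFinset v) := by
      ext u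
      simp
    rw [h2, sum_insert (by simp)]
    rfl
  rw [h1]
  symm
  refine sum_bij (fun j _ => e.symm (j, xor (e v).2 (tw (e v).1 j))) ?_ ?_ ?_ ?_
  · intro j _
    simp only [mem_filter, mem_univ, true_and]
    rw [hG, e.apply_symm_apply]
    have h3 := (adj_iff (e v) (j, xor (e v).2 (tw (e v).1 j))).2 rfl
    rcases h3 with h3 | h3
    · left
      rw [h3, e.symm_apply_apply]
    · exact Or.inr h3
  · intro j _ j' _ h
    have h3 := e.symm.injective h
    exact (Prod.mk.inj h3).1
  · intro u hu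
    simp only [mem_filter, mem_univ, true_and] at hu
    refine ⟨(e u).1, mem_univ _, ?_⟩
    rw [← (adj_iff (e v) (e u)).1 ?_]
    · exact e.symm_apply_apply u
    · rcases hu with hu | hu
      · left
        rw [hu]
      · exact Or.inr ((hG v u).1 hu)
  · intro j _
    rfl

theorem pair_sum (G : SimpleGraph V) [DecidableRel G.Adj] (e : V ≃ Fin m × Bool)
    (hG : ∀ x y, G.Adj x y ↔ (cov m).Adj (e x) (e y)) (f : V → ℤ) (i : Fin m) :
    closedSum G f (e.symm (i, false)) + closedSum G f (e.symm (i, true)) = ∑ v, f v := by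
  rw [closedSum_eq G e hG, closedSum_eq G e hG, ← sum_add_distrib, ← e.symm.sum_comp,
    Fintype.sum_prod_type]
  refine sum_congr rfl fun j _ => ?_
  rw [Fintype.sum_bool, e.apply_symm_apply, e.apply_symm_apply]
  cases tw i j
  · simp [add_comm]
  · simp

theorem even_closedSum (G : SimpleGraph V) [DecidableRel G.Adj] (e : V ≃ Fin m × Bool)
    (hG : ∀ x y, G.Adj x y ↔ (cov m).Adj (e x) (e y)) (hm : Even m) (f : V → ℤ)
    (hf : ∀ v, f v = 1 ∨ f v = -1) (v : V) : Even (closedSum G f v) := by
  rw [closedSum_eq G e hG]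
  have h1 : ∀ s : Finset (Fin m), ∀ g : Fin m → ℤ, (∀ j, g j = 1 ∨ g j = -1) →
      Even (∑ j ∈ s, g j - s.card) := by
    intro s g hg
    induction s using Finset.induction_on with
    | empty => simp
    | insert a s ha ih =>
      rw [sum_insert ha, card_insert_of_notMem ha]
      push_cast
      rcases hg a with h | h
      · rw [h]
        convert ih using 1
        ring
      · rw [h]
        obtain ⟨r, hr⟩ := ih
        exact ⟨r - 1, by linarith⟩
  have h2 := h1 univ (fun j => f (e.symm (j, xor (e v).2 (tw (e v).1 j)))) (fun j => hf _)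
  rw [card_univ, Fintype.card_fin] at h2
  obtain ⟨r, hr⟩ := h2
  obtain ⟨q, hq⟩ := hm
  refine ⟨r + q, ?_⟩
  have h3 : ((m : ℕ) : ℤ) = q + q := by exact_mod_cast hq
  linarith

/-- every signed `(m+1)`-subdominating function has weight at least `4` -/
theorem weight_ge (G : SimpleGraph V) [DecidableRel G.Adj] (e : V ≃ Fin m × Bool)
    (hG : ∀ x y, G.Adj x y ↔ (cov m).Adj (e x) (e y)) (hm : Even m) (f : V → ℤ)
    (hf : IsKSub G (m + 1) f) : 4 ≤ ∑ v, f v := by
  by_contra hlt
  have hcard : (univ.filter fun v => 1 ≤ closedSum G f v).card ≤ m := by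
    have h1 : (univ.filter fun v => 1 ≤ closedSum G f v).card ≤ (univ : Finset (Fin m)).card := by
      refine card_le_card_of_injOn (fun v => (e v).1) (fun _ _ => mem_univ _) ?_
      intro x hx y hy hxy
      simp only [coe_filter, mem_univ, true_and, Set.mem_ofPred_eq] at hx hy
      by_contra hne
      have hne2 : (e x).2 ≠ (e y).2 := by
        intro h
        exact hne (e.injective (Prod.ext hxy h))
      have hx2 : 2 ≤ closedSum G f x := by
        obtain ⟨r, hr⟩ := even_closedSum G e hG hm f hf.1 x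
        omega
      have hy2 : 2 ≤ closedSum G f y := by
        obtain ⟨r, hr⟩ := even_closedSum G e hG hm f hf.1 y
        omega
      have hsum := pair_sum G e hG f (e x).1
      have hxe : e.symm ((e x).1, (e x).2) = x := e.symm_apply_apply x
      have hye : e.symm ((e x).1, (e y).2) = y := by
        have : (e x).1 = (e y).1 := hxy
        rw [this]
        exact e.symm_apply_apply y
      rcases hbx : (e x).2 with _ | _
      · rcases hby : (e y).2 with _ | _
        · exact hne2 (hbx.trans hby.symm)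
        · rw [hbx] at hxe
          rw [hby] at hye
          rw [hxe, hye] at hsum
          omega
      · rcases hby : (e y).2 with _ | _
        · rw [hbx] at hxe
          rw [hby] at hye
          rw [hxe, hye] at hsum
          omega
        · exact hne2 (hbx.trans hby.symm)
    simpa using h1
  have := hf.2
  omega

end main

theorem cov_connected {m : ℕ} (hm : 3 ≤ m) : (cov m).Connected := by
  have hbase : ∀ i : Fin m, ∀ a : Bool, (cov m).Reachable (⟨2, by omega⟩, a) (i, a) := by
    intro i a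
    by_cases hi : i = ⟨2, by omega⟩
    · rw [hi]
    · refine SimpleGraph.Adj.reachable ⟨fun h => hi h.symm, ?_⟩
      simp
  have hcross : (cov m).Reachable ((⟨2, by omega⟩ : Fin m), true) (⟨2, by omega⟩, false) := by
    have h1 := hbase ⟨0, by omega⟩ true
    have h2 : (cov m).Reachable ((⟨0, by omega⟩ : Fin m), true) (⟨1, by omega⟩, false) :=
      SimpleGraph.Adj.reachable ⟨by simp, by simp⟩
    exact (h1.trans h2).trans (hbase ⟨1, by omega⟩ false).symm
  have hall : ∀ x : Fin m × Bool, (cov m).Reachable (⟨2, by omega⟩, false) x := by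
    rintro ⟨i, a⟩
    cases a
    · exact hbase i false
    · exact hcross.symm.trans (hbase i true)
  have : Nonempty (Fin m × Bool) := ⟨(⟨2, by omega⟩, false)⟩
  exact SimpleGraph.Connected.mk (fun x y => (hall x).symm.trans (hall y))

theorem gamma_ge {n m : ℕ} (e : Fin n ≃ Fin m × Bool) (hm : Even m) (hmn : m + 1 ≤ n) :
    4 ≤ gammaKs ((cov m).comap e) (m + 1) := by
  classical
  unfold gammaKs
  refine le_csInf ?_ ?_
  · refine ⟨_, fun _ => 1, ⟨fun _ => Or.inl rfl, ?_⟩, rfl⟩
    rw [Finset.filter_true_of_mem, card_univ, Fintype.card_fin]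
    · exact hmn
    · intro v _
      simp only [closedSum, sum_const, nsmul_eq_mul, mul_one]
      have h0 : ∀ q : ℕ, (1 : ℤ) ≤ 1 + (q : ℤ) := fun q => by
        have : (0 : ℤ) ≤ (q : ℤ) := Int.natCast_nonneg q
        linarith
      exact h0 _
  · rintro w ⟨f, hf, rfl⟩
    exact weight_ge ((cov m).comap e) e (fun x y => Iff.rfl) hm f hf

/-- **Main theorem.** For every `t ≥ 2` some connected graph `G` of order `n = 4 t` has
`γ_ks(G) ≥ 4 > 2 k - n` for `k = 2 t + 1 = n / 2 + 1`.  Hence `p_𝒢(4 t) ≥ 2 t + 2`, and the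
conjecture `p_𝒢(n) = ⌊n / 2⌋ + 1` is false for every `n ≥ 8` divisible by `4`. -/
theorem result :
    (∀ t : ℕ, 2 ≤ t → ∃ G : SimpleGraph (Fin (4 * t)), G.Connected ∧
      4 ≤ gammaKs G (2 * t + 1)) ∧
    (∀ t : ℕ, 2 ≤ t → 2 * t + 2 ≤ pConn (4 * t)) ∧
    ¬ ∀ n : ℕ, 2 ≤ n → pConn n = n / 2 + 1 := by
  have h1 : ∀ t : ℕ, 2 ≤ t → ∃ G : SimpleGraph (Fin (4 * t)), G.Connected ∧
      4 ≤ gammaKs G (2 * t + 1) := by
    intro t ht
    have hc : Fintype.card (Fin (4 * t)) = Fintype.card (Fin (2 * t) × Bool) := by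
      simp only [Fintype.card_fin, Fintype.card_prod, Fintype.card_bool]
      ring
    let e : Fin (4 * t) ≃ Fin (2 * t) × Bool := Fintype.equivOfCardEq hc
    refine ⟨(cov (2 * t)).comap e, ?_, gamma_ge e ⟨t, by ring⟩ (by omega)⟩
    exact (SimpleGraph.Iso.comap e (cov (2 * t))).connected_iff.2 (cov_connected (by omega))
  have h2 : ∀ t : ℕ, 2 ≤ t → 2 * t + 2 ≤ pConn (4 * t) := by
    intro t ht
    by_contra hlt
    obtain ⟨G, hG, hg⟩ := h1 t ht
    have hne : {p : ℕ | ∀ G : SimpleGraph (Fin (4 * t)), G.Connected → ∀ k : ℕ, p ≤ k →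
        k ≤ 4 * t → gammaKs G k ≤ 2 * (k : ℤ) - (4 * t : ℕ)}.Nonempty :=
      ⟨4 * t + 1, fun G _ k hk hk' => by omega⟩
    have hmem := Nat.sInf_mem hne
    have h3 := hmem G hG (2 * t + 1) (by unfold pConn at hlt; omega) (by omega)
    push_cast at h3
    linarith
  refine ⟨h1, h2, fun H => ?_⟩
  have h3 := H 8 (by norm_num)
  have h4 := h2 2 le_rfl
  norm_num at h3 h4
  omega

end Pool.Agent.Results.MP_1fc697_co.CoverCE
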